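import Mathlib

set_option autoImplicit false

/-!
# The Laplacian spread of digraphs grows with slope larger than one
-/

open Finset Matrix

namespace Pool.Agent.Results.MP_df5386_co.SpreadSlope

section

variable {V : Type} [Fintype V] [DecidableEq V] (Adj : V → V → Prop) [DecidableRel Adj]

/-- The Laplacian `D - A` of the digraph with arcs `Adj`, where `D` holds the out-degrees. -/
def lap : Matrix V V ℝ :=
  Matrix.diagonal (fun i => ((univ.filter (fun j => Adj i j)).card : ℝ)) -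
    Matrix.of (fun i j => if Adj i j then (1 : ℝ) else 0)

/-- The values of the quadratic form on unit vectors orthogonal to the all-ones vector. -/
def restrictedValues : Set ℝ :=
  {r | ∃ x : V → ℝ, ∑ i, x i = 0 ∧ ∑ i, x i ^ 2 = 1 ∧ r = x ⬝ᵥ (lap Adj *ᵥ x)}

/-- `β - α`, the Laplacian spread. -/
noncomputable def spread : ℝ := sSup (restrictedValues Adj) - sInf (restrictedValues Adj)

lemma form_eq (x : V → ℝ) : x ⬝ᵥ (lap Adj *ᵥ x) =
    ∑ i, ∑ j, if Adj i j then x i ^ 2 - x i * x j else 0 := by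
  unfold lap
  rw [Matrix.sub_mulVec, dotProduct_sub]
  have h1 : x ⬝ᵥ (Matrix.diagonal (fun i => ((univ.filter (fun j => Adj i j)).card : ℝ)) *ᵥ x) =
      ∑ i, ∑ j, if Adj i j then x i ^ 2 else 0 := by
    unfold dotProduct
    refine sum_congr rfl fun i _ => ?_
    rw [Matrix.mulVec_diagonal, ← sum_filter, sum_const, nsmul_eq_mul]
    ring
  have h2 : x ⬝ᵥ (Matrix.of (fun i j => if Adj i j then (1 : ℝ) else 0) *ᵥ x) =
      ∑ i, ∑ j, if Adj i j then x i * x j else 0 := by
    unfold dotProduct Matrix.mulVec dotProduct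
    refine sum_congr rfl fun i _ => ?_
    rw [mul_sum]
    refine sum_congr rfl fun j _ => ?_
    show x i * ((if Adj i j then (1 : ℝ) else 0) * x j) = _
    split_ifs <;> ring
  rw [h1, h2, ← sum_sub_distrib]
  refine sum_congr rfl fun i _ => ?_
  rw [← sum_sub_distrib]
  refine sum_congr rfl fun j _ => ?_
  split_ifs <;> ring

lemma abs_le_of_mem (r : ℝ) (hr : r ∈ restrictedValues Adj) :
    |r| ≤ 2 * (Fintype.card V : ℝ) ^ 2 := by
  obtain ⟨x, _, h1, rfl⟩ := hr
  rw [form_eq]
  have hx : ∀ i, |x i| ≤ 1 := by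
    intro i
    have : x i ^ 2 ≤ ∑ i, x i ^ 2 :=
      single_le_sum (f := fun i => x i ^ 2) (fun i _ => sq_nonneg _) (mem_univ i)
    rw [h1] at this
    exact (sq_le_one_iff_abs_le_one _).1 this
  have hterm : ∀ i j, |if Adj i j then x i ^ 2 - x i * x j else 0| ≤ 2 := by
    intro i j
    split_ifs
    · have e1 := hx i
      have e2 := hx j
      rw [abs_le] at e1 e2 ⊢
      constructor <;> nlinarith
    · norm_num
  calc |∑ i, ∑ j, if Adj i j then x i ^ 2 - x i * x j else 0|
      ≤ ∑ i, |∑ j, if Adj i j then x i ^ 2 - x i * x j else 0| := abs_sum_le_sum_abs _ _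
    _ ≤ ∑ i : V, ∑ j : V, (2 : ℝ) := sum_le_sum fun i _ =>
        (abs_sum_le_sum_abs _ _).trans (sum_le_sum fun j _ => hterm i j)
    _ = 2 * (Fintype.card V : ℝ) ^ 2 := by
        simp only [sum_const, card_univ, nsmul_eq_mul]; ring

lemma spread_ge (r s : ℝ) (hr : r ∈ restrictedValues Adj) (hs : s ∈ restrictedValues Adj) :
    r - s ≤ spread Adj := by
  have h1 : r ≤ sSup (restrictedValues Adj) := by
    refine le_csSup ⟨2 * (Fintype.card V : ℝ) ^ 2, fun t ht => ?_⟩ hr
    exact (abs_le.1 (abs_le_of_mem Adj t ht)).2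
  have h2 : sInf (restrictedValues Adj) ≤ s := by
    refine csInf_le ⟨-(2 * (Fintype.card V : ℝ) ^ 2), fun t ht => ?_⟩ hs
    exact (abs_le.1 (abs_le_of_mem Adj t ht)).1
  unfold spread
  linarith

end

/-- Out-neighbours in the base digraph of order five. -/
def nb : Fin 5 → List (Fin 5)
  | 0 => [1, 2, 3, 4]
  | 1 => [0, 2, 3, 4]
  | 2 => [0, 3]
  | 3 => []
  | 4 => []

/-- The blow-up: every vertex of the base digraph is replaced by `m` vertices. -/
def Blow (m : ℕ) (p q : Fin 5 × Fin m) : Prop := q.1 ∈ nb p.1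

instance (m : ℕ) : DecidableRel (Blow m) := fun p q => inferInstanceAs (Decidable (q.1 ∈ nb p.1))

lemma blow_form (m : ℕ) (X : Fin 5 → ℝ) (c : ℝ) :
    (fun p : Fin 5 × Fin m => c * X p.1) ⬝ᵥ (lap (Blow m) *ᵥ (fun p => c * X p.1)) =
      c ^ 2 * m ^ 2 * ∑ i, ∑ j, if j ∈ nb i then X i ^ 2 - X i * X j else 0 := by
  rw [form_eq]
  have h : ∀ p q : Fin 5 × Fin m, (if Blow m p q then (c * X p.1) ^ 2 - c * X p.1 * (c * X q.1)
      else 0) = c ^ 2 * (if q.1 ∈ nb p.1 then X p.1 ^ 2 - X p.1 * X q.1 else 0) := by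
    intro p q
    by_cases hpq : q.1 ∈ nb p.1
    · have : Blow m p q := hpq
      rw [if_pos this, if_pos hpq]; ring
    · have : ¬ Blow m p q := hpq
      rw [if_neg this, if_neg hpq]; ring
  simp_rw [h]
  simp only [Fintype.sum_prod_type, sum_const, card_univ, Fintype.card_fin, nsmul_eq_mul]
  rw [mul_sum]
  refine sum_congr rfl fun i _ => ?_
  rw [mul_sum, mul_sum]
  refine sum_congr rfl fun j _ => ?_
  ring

lemma blow_norm (m : ℕ) (X : Fin 5 → ℝ) (c : ℝ) :
    ∑ p : Fin 5 × Fin m, (c * X p.1) ^ 2 = c ^ 2 * m * ∑ i, X i ^ 2 := by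
  rw [Fintype.sum_prod_type]
  simp only [sum_const, card_univ, Fintype.card_fin, nsmul_eq_mul]
  rw [mul_sum]
  refine sum_congr rfl fun i _ => ?_
  ring

lemma blow_sum (m : ℕ) (X : Fin 5 → ℝ) (c : ℝ) (h : ∑ i, X i = 0) :
    ∑ p : Fin 5 × Fin m, c * X p.1 = 0 := by
  rw [Fintype.sum_prod_type]
  simp only [sum_const, card_univ, Fintype.card_fin, nsmul_eq_mul]
  rw [← mul_sum, ← mul_sum, h]
  ring

lemma mem_blow (m : ℕ) (hm : 0 < m) (X : Fin 5 → ℝ) (h : ∑ i, X i = 0) (q : ℝ)
    (hn : ∑ i, X i ^ 2 = 62) (hq : (∑ i, ∑ j, if j ∈ nb i then X i ^ 2 - X i * X j else 0) = q) :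
    q / 62 * m ∈ restrictedValues (Blow m) := by
  have hm' : (0 : ℝ) < m := by exact_mod_cast hm
  have hc : (1 / Real.sqrt (62 * m)) ^ 2 = 1 / (62 * m) := by
    rw [div_pow, Real.sq_sqrt (by positivity), one_pow]
  refine ⟨fun p => 1 / Real.sqrt (62 * m) * X p.1, blow_sum m X _ h, ?_, ?_⟩
  · rw [blow_norm, hc, hn]
    field_simp
  · rw [blow_form, hc, hq]
    field_simp

lemma spread_blow (m : ℕ) (hm : 0 < m) : 158 / 31 * (m : ℝ) ≤ spread (Blow m) := by
  have h1 := mem_blow m hm ![6, -5, -1, 0, 0] (by simp [Fin.sum_univ_succ]; norm_num) 313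
    (by simp [Fin.sum_univ_succ]; norm_num) (by
      simp [Fin.sum_univ_succ, nb]; norm_num)
  have h2 := mem_blow m hm ![0, 0, 1, 5, -6] (by simp [Fin.sum_univ_succ]; norm_num) (-3)
    (by simp [Fin.sum_univ_succ]; norm_num) (by
      simp [Fin.sum_univ_succ, nb]; norm_num)
  have := spread_ge (Blow m) _ _ h1 h2
  linarith

/-- For every real `C` there is a loopless digraph of some order `n ≥ 2` whose Laplacian spread
exceeds `n + C`; moreover the spread can be taken at least `158 / 155` times the order. -/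
theorem result : ∀ C : ℝ, ∃ (V : Type) (_ : Fintype V) (_ : DecidableEq V) (Adj : V → V → Prop)
    (_ : DecidableRel Adj), (∀ v, ¬ Adj v v) ∧ 2 ≤ Fintype.card V ∧
      158 / 155 * (Fintype.card V : ℝ) ≤ spread Adj ∧ (Fintype.card V : ℝ) + C < spread Adj := by
  intro C
  obtain ⟨m, hm⟩ := exists_nat_gt (|C| * 31 / 3 + 1)
  have hm' : (1 : ℝ) < m := lt_of_le_of_lt (by have := abs_nonneg C; linarith) hm
  have hm0 : 1 < m := by exact_mod_cast hm'
  refine ⟨Fin 5 × Fin m, inferInstance, inferInstance, Blow m, inferInstance, ?_, ?_, ?_, ?_⟩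
  · have hb : ∀ i : Fin 5, i ∉ nb i := by decide
    rintro ⟨i, a⟩ h
    exact hb i h
  · rw [Fintype.card_prod, Fintype.card_fin, Fintype.card_fin]; omega
  · have := spread_blow m (by omega)
    rw [Fintype.card_prod, Fintype.card_fin, Fintype.card_fin]
    push_cast
    linarith
  · have := spread_blow m (by omega)
    rw [Fintype.card_prod, Fintype.card_fin, Fintype.card_fin]
    push_cast
    have h3 := le_abs_self C
    linarith

end Pool.Agent.Results.MP_df5386_co.SpreadSlope
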